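import Pool.Agent.L5helper4.SR.Base

set_option autoImplicit false

/-!
# Strings of consecutive primes `x` for which `x² + x + A_1, …, x² + x + A_k` are almost prime

Let `k, m ≥ 1`. There are `K`, `B` and `δ > 0` and for every `E` a number `r` such that for every set `S`
of at least `K` shifts and all large `N` the following holds for ALL `A_1, …, A_k`, `1 ≤ A_i ≤ N ^ E`, for
which no prime divides `x (x² + x + A_1) ⋯ (x² + x + A_k)` for all `x` (for `k = 1`: for all odd `A_1`): for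
at least `N / (log N) ^ B` integers `n` between `N` and `2 N` the primes in `[n, n + max S]` are
`n + s`, `s ∈ H`, where `H ⊆ S` has at least `m` elements and does not depend on `n`, and at all these
primes `x` all the numbers `x² + x + A_i` have at most `r` prime factors, all at least `N ^ δ`.

The theorem of Maynard and Tao for primes with almost prime companions, uniformly in the polynomial, is in the
starting library (`Pool.Agent.R498.MP.stringsUR`, never handed in).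
-/

namespace Pool.Agent.Results.MP_8be758_nt.AlmostPrimesAtPrimeStrings

open Filter Polynomial
open Pool.Agent.R498.MP (APZ)
open Pool.Agent.L5helper4.SR

/-- `v` has at most `r` prime factors, counted with multiplicity, all of them at least `w`. -/
def AlmostPrime (r : ℕ) (w : ℝ) (v : ℕ) : Prop :=
  v.primeFactorsList.length ≤ r ∧ ∀ p : ℕ, p.Prime → p ∣ v → w ≤ p

/-- no prime divides `x * ∏ (x ^ 2 + x + A i)` for all integers `x` -/
def NoFixedDivisor {k : ℕ} (A : Fin k → ℕ) : Prop :=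
  ∀ p : ℕ, p.Prime → ∃ x : ℤ, ¬ (p : ℤ) ∣ x * ∏ i, (x ^ 2 + x + A i)

/-- a single odd `A` has no fixed divisor -/
theorem noFixedDivisor_odd (a : ℕ) (ha : Odd a) : NoFixedDivisor (fun _ : Fin 1 => a) := by
  intro p hp
  by_contra hcon
  push Not at hcon
  have h1 : ∀ x : ℤ, (p : ℤ) ∣ x * (x ^ 2 + x + a) := fun x => by
    have := hcon x
    simpa using this
  have hpi : Prime (p : ℤ) := Nat.prime_iff_prime_int.1 hp
  have h2 : (p : ℤ) ∣ (2 + a : ℤ) := by
    have := h1 1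
    norm_num at this
    exact this
  have hp2 : p ≠ 2 := by
    rintro rfl
    obtain ⟨b, rfl⟩ := ha
    push_cast at h2
    omega
  have h3 : (p : ℤ) ∣ (a : ℤ) := by
    have := h1 (-1)
    norm_num at this
    exact this
  have h4 : (p : ℤ) ∣ 2 := by
    have := dvd_sub h2 h3
    rwa [add_sub_cancel_right] at this
  have : p ∣ 2 := by exact_mod_cast h4
  exact hp2 ((Nat.prime_dvd_prime_iff_eq hp Nat.prime_two).1 this)

/-- **Strings of consecutive primes `x` with almost prime `x² + x + A_i`, uniformly in the `A_i`.** -/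
theorem result (k m : ℕ) :
    (∀ a : ℕ, Odd a → NoFixedDivisor (fun _ : Fin 1 => a)) ∧
    ∃ (K B : ℕ) (δ : ℝ), 0 < δ ∧ ∀ E : ℕ, ∃ r : ℕ, ∀ S : Finset ℕ, K ≤ S.card →
      ∀ᶠ N : ℕ in atTop, ∀ A : Fin k → ℕ, (∀ i, 1 ≤ A i ∧ A i ≤ N ^ E) → NoFixedDivisor A →
      ∃ H ⊆ S, m ≤ H.card ∧ ∃ T : Finset ℕ, (N : ℝ) ≤ Real.log N ^ B * T.card ∧
        ∀ n ∈ T, N < n ∧ n + S.sup id ≤ 2 * N ∧ (∀ y ≤ S.sup id, (n + y).Prime ↔ y ∈ H) ∧
          ∀ s ∈ H, ∀ i, AlmostPrime r ((N : ℝ) ^ δ) ((n + s) ^ 2 + (n + s) + A i) := by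
  refine ⟨noFixedDivisor_odd, ?_⟩
  obtain ⟨K, B, δ, hδ, h1⟩ := strings_fam k 2 1 squarefree_one m
  refine ⟨K, B, δ, hδ, fun E => ?_⟩
  obtain ⟨r, h2⟩ := h1 (E + 5)
  refine ⟨r, fun S hS => ?_⟩
  filter_upwards [h2 S hS, eventually_ge_atTop 2] with N h3 hN2
  intro A hA hadm
  have hev : ∀ i, ∀ x : ℤ, (X ^ 2 + X + C (A i : ℤ) : ℤ[X]).eval x = x ^ 2 + x + A i := fun i x => by
    simp
  have hpos : ∀ x : ℤ, 0 ≤ x ^ 2 + x := fun x => by
    rcases le_or_gt 0 x with h | h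
    · positivity
    · nlinarith
  have hN : (2 : ℤ) ≤ N := by exact_mod_cast hN2
  obtain ⟨H, hHS, hHm, T, hT, h4⟩ := h3 (fun i => X ^ 2 + X + C (A i : ℤ)) (by
      intro i
      compute_degree) (by
      intro p hp
      obtain ⟨x, hx⟩ := hadm p hp
      refine ⟨x, ?_⟩
      simpa [hev] using hx) (by
      intro i x hx
      rw [hev]
      have hA1 : (1 : ℤ) ≤ A i := by exact_mod_cast (hA i).1
      have hA2 : (A i : ℤ) ≤ (N : ℤ) ^ E := by exact_mod_cast (hA i).2
      have h7 : |x ^ 2 + x + A i| = x ^ 2 + x + A i := abs_of_nonneg (by linarith [hpos x])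
      rw [h7]
      have h5 : x ≤ 2 * N := (le_abs_self x).trans hx
      have h6 : x ^ 2 ≤ (2 * (N : ℤ)) ^ 2 := by
        rw [← sq_abs]
        exact pow_le_pow_left₀ (abs_nonneg _) hx 2
      have h8 : (1 : ℤ) ≤ (N : ℤ) ^ E := one_le_pow₀ (by linarith)
      have h11 : (4 : ℤ) ≤ (N : ℤ) ^ 2 := by nlinarith
      have h15 : (4 : ℤ) * (N : ℤ) ^ 2 ≤ (N : ℤ) ^ 4 := by nlinarith
      have h16 : 2 * (N : ℤ) + 1 ≤ 2 * (N : ℤ) ^ 2 := by nlinarith
      have h17 : (2 : ℤ) * (N : ℤ) ^ 4 ≤ (N : ℤ) ^ 5 := by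
        have h14 : (N : ℤ) ^ 5 = (N : ℤ) ^ 4 * N := by ring
        rw [h14]
        nlinarith [pow_pos (by linarith : (0 : ℤ) < N) 4]
      have h18 : (N : ℤ) ^ (E + 5) = (N : ℤ) ^ E * (N : ℤ) ^ 5 := pow_add _ _ _
      have h19 : x ^ 2 + x + 1 ≤ (N : ℤ) ^ 5 := by nlinarith
      rw [h18]
      nlinarith) (by
      intro i x _ _
      rw [hev]
      have hA1 : (1 : ℤ) ≤ A i := by exact_mod_cast (hA i).1
      have := hpos x
      linarith) 0 (by
      intro p hp hp1
      exact absurd (Nat.dvd_one.1 hp1) hp.one_lt.ne')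
  refine ⟨H, hHS, hHm, T, hT, fun n hn => ?_⟩
  obtain ⟨h5, h6, h7, h8⟩ := h4 n hn
  refine ⟨h5, h6, h7, fun s hs i => ?_⟩
  have h9 := (h8 s hs).2 i
  rw [hev] at h9
  have h10 : ((n + s : ℕ) : ℤ) ^ 2 + ((n + s : ℕ) : ℤ) + A i = (((n + s) ^ 2 + (n + s) + A i : ℕ) : ℤ) := by
    push_cast
    ring
  rw [h10] at h9
  exact apz_nat h9

end Pool.Agent.Results.MP_8be758_nt.AlmostPrimesAtPrimeStrings
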