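import Pool.Agent.L5helper16.QX.SAP

set_option autoImplicit false

/-!
# Almost prime values of `x² + x + A` in narrow progressions, in almost all very short intervals

For all odd `A ≥ 3`: in almost all intervals of length `X ^ h` a positive proportion (relative to the order
`X ^ h / log X`) of the arguments `n` for which `n² + n + A` has at most `r` prime factors, all of them at
least `X ^ z`, lies in progressions of length `l` of such arguments, with differences at most a power of `log X`.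
Here `r = 5` for every `h > 0`, `r = 4` for `h > 0.076` and `r = 3` for `h > 0.45`.
-/

namespace Pool.Agent.Results.MP_8be758_nt.ProgressionsInShortIntervals

open Finset Filter
open Pool.Agent.L5helper16.QX

/-- `n ^ 2 + n + A` has at most `r` prime factors, counted with multiplicity, all of them at least `w`. -/
def Good (A r : ℕ) (w : ℝ) (n : ℕ) : Prop :=
  (n ^ 2 + n + A).primeFactorsList.length ≤ r ∧ ∀ p : ℕ, p.Prime → p ∣ n ^ 2 + n + A → w ≤ p

/-- The number of the `n` that are a term of an arithmetic progression `u, u + d, …, u + (l - 1) d` with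
`1 ≤ d ≤ D`, all of whose terms are in `(M, M + H]` and satisfy `Good A r w`. -/
noncomputable def inProgressions (A r : ℕ) (w : ℝ) (l : ℕ) (D : ℝ) (M H : ℕ) : ℕ :=
  {n : ℕ | ∃ u d : ℕ, 1 ≤ d ∧ (d : ℝ) ≤ D ∧
    (∀ i < l, Good A r w (u + i * d) ∧ M < u + i * d ∧ u + i * d ≤ M + H) ∧ ∃ i < l, n = u + i * d}.ncard

theorem mem_gs (A r : ℕ) (w : ℝ) (M H n : ℕ) :
    n ∈ gs (FA A) r w M H ↔ (M < n ∧ n ≤ M + H) ∧ Good A r w n := by
  classical
  unfold gs Good
  rw [mem_filter, mem_Ioc, FA_eval]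
  have e : ((n : ℤ) ^ 2 + n + (A : ℤ)) = ((n ^ 2 + n + A : ℕ) : ℤ) := by push_cast; ring
  rw [e, Int.natAbs_natCast]
  constructor
  · rintro ⟨h1, h2, h3⟩
    exact ⟨h1, h2, fun p hp hd => h3 p hp (Int.natCast_dvd_natCast.2 hd)⟩
  · rintro ⟨h1, h2, h3⟩
    exact ⟨h1, h2, fun p hp hd => h3 p hp (Int.natCast_dvd_natCast.1 hd)⟩

theorem inProgressions_eq (A r : ℕ) (w : ℝ) (l : ℕ) (D : ℝ) (M H : ℕ) :
    inProgressions A r w l D M H = cntG (FA A) r w l D M H := by
  classical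
  unfold inProgressions cntG
  rw [← Set.ncard_coe_finset]
  congr 1
  ext n
  simp only [Set.mem_setOf_eq, coe_filter]
  constructor
  · rintro ⟨u, d, h1, h2, h3, i, hi, hn⟩
    have h4 := h3 i hi
    rw [← hn] at h4
    refine ⟨(mem_gs A r w M H n).2 ⟨h4.2, h4.1⟩, u, d, h1, h2, fun j hj => ?_, i, hi, hn⟩
    obtain ⟨h5, h6⟩ := h3 j hj
    exact ⟨mem_coe.2 ((mem_gs A r w M H _).2 ⟨h6, h5⟩), h6⟩
  · rintro ⟨-, u, d, h1, h2, h3, h4⟩
    refine ⟨u, d, h1, h2, fun j hj => ?_, h4⟩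
    obtain ⟨h5, h6⟩ := h3 j hj
    exact ⟨((mem_gs A r w M H _).1 (mem_coe.1 h5)).2, h6⟩

open Classical in
/-- **Almost prime values of `x ^ 2 + x + A` in narrow progressions, in almost all intervals of length `X ^ h`.**
Let `A ≥ 3` be odd and `(r, t, z)` one of: `r = 5`, `1 / 2 ≤ t`, `z = 2 t / 5`; `r = 4`, `269 / 500 ≤ t`, `z = t / 4`;
`r = 3`, `29 / 40 ≤ t`, `z = t / 4`; with `t < 1`. For all `0 < h ≤ t`, `ε > 0` and `l ≥ 2` there are `δ > 0` and
`B` such that for all large `X` and all `1 ≤ M ≤ X` with at most `X ^ (2 t - h + ε)` exceptions at least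
`δ X ^ h / log X` of the `n` in `(M, M + X ^ h]` are terms of an arithmetic progression of length `l` in
`(M, M + X ^ h]` with a difference at most `(log X) ^ B` such that for each of its terms `m` the number
`m ^ 2 + m + A` has at most `r` prime factors, all of them at least `X ^ z`. -/
theorem result (A : ℕ) (hA : Odd A) (hA3 : 3 ≤ A) (r : ℕ) (t z : ℝ)
    (hpar : (r = 5 ∧ 1 / 2 ≤ t ∧ z = 2 / 5 * t) ∨ (r = 4 ∧ 269 / 500 ≤ t ∧ z = t / 4) ∨
      (r = 3 ∧ 29 / 40 ≤ t ∧ z = t / 4)) (ht : t < 1) (h ε : ℝ) (hh : 0 < h) (hht : h ≤ t)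
    (hε : 0 < ε) (l : ℕ) (hl : 2 ≤ l) :
    ∃ δ : ℝ, 0 < δ ∧ ∃ B : ℕ, ∀ᶠ X : ℕ in atTop,
      (((Icc 1 X).filter (fun M : ℕ =>
        (inProgressions A r ((X : ℝ) ^ z) l (Real.log X ^ B) M ⌊(X : ℝ) ^ h⌋₊ : ℝ) <
          δ * ((X : ℝ) ^ h / Real.log X))).card : ℝ) ≤ (X : ℝ) ^ (2 * t - h + ε) := by
  have hA' : Odd (A : ℤ) := by exact_mod_cast hA
  have hΔ : ¬ IsSquare (1 - 4 * (A : ℤ)) := by
    rintro ⟨s, hs⟩
    have h3 : (3 : ℤ) ≤ A := by exact_mod_cast hA3
    nlinarith [mul_self_nonneg s]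
  obtain ⟨δ, hδ, B, H⟩ := mainAP (A : ℤ) hA' hΔ r t z hpar ht h ε hh hht hε l hl
  refine ⟨δ, hδ, B, ?_⟩
  filter_upwards [H] with X hX
  simp_rw [inProgressions_eq]
  exact hX

end Pool.Agent.Results.MP_8be758_nt.ProgressionsInShortIntervals
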