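import Pool.Agent.L5helper16.QX.SU

set_option autoImplicit false

/-!
# The linear sieve for `x² + x + A` in almost all very short intervals, with the constant `C(Δ)`

Let `A ≥ 3` be odd, `C` the constant `C(Δ)` of Conjecture F, `1 / 2 ≤ t < 1`, `0 < h ≤ 1`, `s ≥ 1`, and let `F`, `f` be
the functions of Jurkat and Richert. For all `N ≤ X` with at most `X ^ (2 t - h + ε)` exceptions the number of the
`n` in `(N, N + X ^ h]` for which `n² + n + A` has no prime factor below `X ^ (t / s)` lies between `f(s) - δ` and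
`F(s) + δ` times the expected number `2 C exp (-γ) (s / t) X ^ h / log X`, and the number of the primes
`n² + n + A`, `N < n ≤ N + X ^ h`, is at most `4 / t + δ` times the number `C X ^ h / log X` of Conjecture F.
-/

namespace Pool.Agent.Results.MP_8be758_nt.SieveAlmostAllShortIntervals

open Finset Filter Topology
open Pool.Agent.W23.DC
open Pool.Agent.Y882.JR
open Pool.Agent.Y781.JR
open Pool.Agent.L5helper16.QX

/-- The partial products `∏_{2 < p ≤ x} (1 - (Δ / p) / (p - 1))` of `C(Δ)`, `Δ = 1 - 4 A`. -/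
noncomputable def partialC (A x : ℕ) : ℝ :=
  ∏ p ∈ (Icc 3 x).filter Nat.Prime, (1 - (jacobiSym (1 - 4 * (A : ℤ)) p : ℝ) / ((p : ℝ) - 1))

/-- `F` and `f` are the functions of Jurkat and Richert of the linear sieve: continuous on `[1, ∞)`,
`F(s) = 2 exp γ / s` for `1 ≤ s ≤ 3`, `f(s) = 0` for `1 ≤ s ≤ 2`, and `(s F(s))' = f(s - 1)` for `s ≥ 3`,
`(s f(s))' = F(s - 1)` for `s ≥ 2`, in integrated form. -/
structure JurkatRichert (F f : ℝ → ℝ) : Prop where
  contF : ContinuousOn F (Set.Ici 1)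
  contf : ContinuousOn f (Set.Ici 1)
  F_start : ∀ s, 1 ≤ s → s ≤ 3 → F s = 2 * Real.exp Real.eulerMascheroniConstant / s
  f_start : ∀ s, 1 ≤ s → s ≤ 2 → f s = 0
  F_eq : ∀ s, 3 ≤ s → s * F s = 2 * Real.exp Real.eulerMascheroniConstant + ∫ x in (3 : ℝ)..s, f (x - 1)
  f_eq : ∀ s, 2 ≤ s → s * f s = ∫ x in (2 : ℝ)..s, F (x - 1)

/-- The number of the `n` in `(N, N + H]` such that `n ^ 2 + n + A` has no prime factor below `z`. -/
noncomputable def sifted (A : ℕ) (z : ℝ) (N H : ℕ) : ℕ :=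
  {n : ℕ | N < n ∧ n ≤ N + H ∧ ∀ p : ℕ, p.Prime → p ∣ n ^ 2 + n + A → z ≤ p}.ncard

/-- The number of the `n` in `(N, N + H]` such that `n ^ 2 + n + A` is a prime. -/
noncomputable def primeArguments (A : ℕ) (N H : ℕ) : ℕ :=
  {n : ℕ | N < n ∧ n ≤ N + H ∧ (n ^ 2 + n + A).Prime}.ncard

/-- The expected number `2 C exp (-γ) (s / t) X ^ h / log X` of the `n` in an interval of length `X ^ h` near `X`
for which `n ^ 2 + n + A` has no prime factor below `X ^ (t / s)`. -/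
noncomputable def expected (C s t h : ℝ) (X : ℕ) : ℝ :=
  2 * C * Real.exp (-Real.eulerMascheroniConstant) * (s / t) * ((X : ℝ) ^ h / Real.log X)

theorem sifted_eq (A : ℕ) (z : ℝ) (N H : ℕ) : sifted A z N H = roughG (FA A) z N H := by
  classical
  unfold sifted roughG
  rw [← Set.ncard_coe_finset]
  congr 1
  ext n
  simp only [Set.mem_setOf_eq, coe_filter, mem_Ioc, FA_eval]
  constructor
  · rintro ⟨h1, h2, h3⟩
    exact ⟨⟨h1, h2⟩, fun p hp hd => h3 p hp (by exact_mod_cast hd)⟩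
  · rintro ⟨⟨h1, h2⟩, h3⟩
    exact ⟨h1, h2, fun p hp hd => h3 p hp (by exact_mod_cast hd)⟩

theorem primeArguments_eq (A : ℕ) (N H : ℕ) : primeArguments A N H = primesA A N H := by
  classical
  unfold primeArguments primesA
  rw [← Set.ncard_coe_finset]
  congr 1
  ext n
  simp only [Set.mem_setOf_eq, coe_filter, mem_Ioc]
  tauto

theorem partialC_eq (A x : ℕ) : partialC A x = RR (4 * (A : ℤ) - 1) (x + 1) := by
  unfold partialC RR
  have hs : (Icc 3 x).filter Nat.Prime = (range (x + 1)).filter (fun p : ℕ => p.Prime ∧ p ≠ 2) := by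
    ext p
    rw [mem_filter, mem_filter, mem_Icc, mem_range]
    constructor
    · rintro ⟨⟨h1, h2⟩, h3⟩
      exact ⟨by omega, h3, by omega⟩
    · rintro ⟨h1, h2, h3⟩
      have := h2.two_le
      exact ⟨⟨by omega, by omega⟩, h2⟩
  rw [hs]
  refine prod_congr rfl (fun p _ => ?_)
  rw [neg_sub]

open Classical in
/-- **The linear sieve for `x ^ 2 + x + A` at almost all positions, in intervals of length `X ^ h`.** Let `A ≥ 3` be
odd. There are `C > 0`, the constant `C(Δ)` of Conjecture F, and the functions `F`, `f` of Jurkat and Richert, which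
tend to `1` at infinity, with `f(s) = 2 exp γ log (s - 1) / s` for `2 ≤ s ≤ 4`, such that for all `1 / 2 ≤ t < 1`,
`0 < h ≤ 1`, `δ, ε > 0`:

(1) for all `s ≥ 1`, all large `X` and all `1 ≤ N ≤ X` with at most `X ^ (2 t - h + ε)` exceptions the number of the
`n` in `(N, N + X ^ h]` for which `n ^ 2 + n + A` has no prime factor below `X ^ (t / s)` is at least `(f(s) - δ) E`
and at most `(F(s) + δ) E`, where `E = 2 C exp (-γ) (s / t) X ^ h / log X`;

(2) for all large `X` and all `1 ≤ N ≤ X` with at most `X ^ (2 t - h + ε)` exceptions the number of the `n` in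
`(N, N + X ^ h]` for which `n ^ 2 + n + A` is a prime is at most `(4 / t + δ) C X ^ h / log X`. -/
theorem result (A : ℕ) (hA : Odd A) (hA3 : 3 ≤ A) :
    ∃ (C : ℝ) (F f : ℝ → ℝ), 0 < C ∧ Tendsto (partialC A) atTop (𝓝 C) ∧ JurkatRichert F f ∧
    Tendsto F atTop (𝓝 1) ∧ Tendsto f atTop (𝓝 1) ∧
    (∀ s, 2 ≤ s → s ≤ 4 → f s = 2 * Real.exp Real.eulerMascheroniConstant * Real.log (s - 1) / s) ∧
    ∀ t h δ ε : ℝ, 1 / 2 ≤ t → t < 1 → 0 < h → h ≤ 1 → 0 < δ → 0 < ε →
      (∀ s : ℝ, 1 ≤ s → ∀ᶠ X : ℕ in atTop, (((Icc 1 X).filter (fun N : ℕ =>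
        ¬ ((f s - δ) * expected C s t h X ≤ sifted A ((X : ℝ) ^ (t / s)) N ⌊(X : ℝ) ^ h⌋₊ ∧
          (sifted A ((X : ℝ) ^ (t / s)) N ⌊(X : ℝ) ^ h⌋₊ : ℝ) ≤ (F s + δ) * expected C s t h X))).card : ℝ) ≤
        (X : ℝ) ^ (2 * t - h + ε)) ∧
      ∀ᶠ X : ℕ in atTop, (((Icc 1 X).filter (fun N : ℕ =>
        (4 / t + δ) * (C * ((X : ℝ) ^ h / Real.log X)) < (primeArguments A N ⌊(X : ℝ) ^ h⌋₊ : ℝ))).card : ℝ) ≤
        (X : ℝ) ^ (2 * t - h + ε) := by
  have hA' : Odd (A : ℤ) := by exact_mod_cast hA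
  have hΔ : ¬ IsSquare (1 - 4 * (A : ℤ)) := by
    rintro ⟨s, hs⟩
    have h3 : (3 : ℤ) ≤ A := by exact_mod_cast hA3
    nlinarith [mul_self_nonneg s]
  obtain ⟨C, A0, F, f, hC, hR, hSF, hA0, H⟩ := two_sided (A : ℤ) hA' hΔ
  refine ⟨C, F, f, hC, ?_, ⟨hSF.cF, hSF.cf, ?_, hSF.f2, ?_, hSF.ef⟩, F_lim hSF, f_lim hSF, ?_, ?_⟩
  · have := hR.comp (tendsto_add_atTop_nat 1)
    refine this.congr (fun x => ?_)
    exact (partialC_eq A x).symm
  · intro s h1 h2
    rw [hSF.F3 s h1 h2, hA0]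
  · intro s h1
    rw [hSF.eF s h1, hA0]
  · intro s h1 h2
    rw [hSF.f4 s h1 h2, hA0]
  intro t h δ ε ht1 ht hh hh1 hδ hε
  constructor
  · intro s hs
    filter_upwards [H s t h δ ε hs ht1 ht hh hh1 hδ hε] with X hX
    simp_rw [sifted_eq]
    exact hX
  · simp_rw [primeArguments_eq]
    apply upperA A C A0 hC hA0 ?_ h t δ ε hh hh1 ht1 ht hδ hε
    intro t h δ ε ht1 ht hh hh1 hδ hε
    filter_upwards [H 1 t h δ ε le_rfl ht1 ht hh hh1 hδ hε] with X hX
    refine le_trans ?_ hX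
    norm_cast
    apply card_le_card
    intro N hN
    rw [mem_filter] at hN ⊢
    refine ⟨hN.1, fun hcon => ?_⟩
    have hF1 : F 1 = A0 := by rw [hSF.F3 1 le_rfl (by norm_num), div_one]
    have h1 := hcon.2
    rw [hF1, div_one] at h1
    exact absurd hN.2 (not_lt.2 h1)

end Pool.Agent.Results.MP_8be758_nt.SieveAlmostAllShortIntervals
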